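import Pool.Agent.Helper71.PY.Goals

/-! Packet PY-UFD (project PY of helper71): a two-dimensional regular local ring is a UFD and its
primes other than zero and the maximal ideal are principal. -/

open Pool.Agent.Helper71.PY

namespace Pool.Agent.Helper15.PY

theorem key (h : G_FREE) (R : Type) [CommRing R] [IsDomain R] [IsLocalRing R] [IsNoetherianRing R]
    (x y : R) (hxy : Reg2 R x y) (P : Ideal R) (hP : P.IsPrime) (hP0 : P ≠ ⊥)
    (hPm : P ≠ IsLocalRing.maximalIdeal R) : ∃ π : R, Prime π ∧ P = Ideal.span {π} := by
  have hor : x ∉ P ∨ y ∉ P := by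
    by_contra hcon
    push Not at hcon
    apply hPm
    apply le_antisymm (IsLocalRing.le_maximalIdeal hP.ne_top)
    rw [hxy.max, Ideal.span_le]
    intro z hz
    rcases hz with hz | hz
    · rw [hz]; exact hcon.1
    · rw [Set.mem_singleton_iff] at hz
      rw [hz]; exact hcon.2
  have hx0 : x ≠ 0 := hxy.prx.ne_zero
  have hfree : Module.Free R P := by
    apply h R x y hxy P
    · intro r m hrm
      by_cases hr : r = 0
      · exact Or.inl hr
      · right
        have h1 : r * (m : R) = 0 := congrArg Subtype.val hrm
        rcases mul_eq_zero.1 h1 with h2 | h2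
        · exact absurd h2 hr
        · exact Subtype.ext h2
    · intro m m' hmm'
      have e : y * (m : R) = x * (m' : R) := congrArg Subtype.val hmm'
      have hd : x ∣ y * (m : R) := ⟨m', e⟩
      rcases hxy.prx.dvd_or_dvd hd with h1 | h1
      · exact absurd h1 hxy.ndvd
      · obtain ⟨c, hc⟩ := h1
        have hyc : y * c = (m' : R) := by
          apply mul_left_cancel₀ hx0
          rw [← e, hc]
          ring
        have hcP : c ∈ P := by
          rcases hor with hx | hy
          · have h2 : x * c ∈ P := by rw [← hc]; exact m.2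
            exact (hP.mem_or_mem h2).resolve_left hx
          · have h2 : y * c ∈ P := by rw [hyc]; exact m'.2
            exact (hP.mem_or_mem h2).resolve_left hy
        exact ⟨⟨c, hcP⟩, Subtype.ext hc⟩
  let b := Module.Free.chooseBasis R P
  have hsub : ∀ i j : Module.Free.ChooseBasisIndex R P, i = j := by
    intro i j
    by_contra hij
    have e : ((b j : P) : R) • b i = ((b i : P) : R) • b j := by
      apply Subtype.ext
      simp only [Submodule.coe_smul, smul_eq_mul]
      ring
    have e2 := congrArg (fun z => b.repr z i) e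
    have hji : j ≠ i := fun h2 => hij h2.symm
    simp [hji] at e2
    exact b.ne_zero j e2
  have hne : Nonempty (Module.Free.ChooseBasisIndex R P) := by
    by_contra hemp
    rw [not_nonempty_iff] at hemp
    apply hP0
    rw [Submodule.eq_bot_iff]
    intro z hz
    have h1 : (⟨z, hz⟩ : P) = 0 := by
      rw [← b.sum_repr ⟨z, hz⟩]
      simp
    exact congrArg Subtype.val h1
  obtain ⟨i⟩ := hne
  have hspan : P = Ideal.span {((b i : P) : R)} := by
    apply le_antisymm
    · intro z hz
      rw [Ideal.mem_span_singleton]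
      have h1 : (⟨z, hz⟩ : P) = b.repr ⟨z, hz⟩ i • b i := by
        conv_lhs => rw [← b.sum_repr ⟨z, hz⟩]
        apply Finset.sum_eq_single i
        · intro j _ hj
          exact absurd (hsub j i) hj
        · intro h2
          exact absurd (Finset.mem_univ i) h2
      have h2 : z = b.repr ⟨z, hz⟩ i * ((b i : P) : R) := congrArg Subtype.val h1
      exact ⟨b.repr ⟨z, hz⟩ i, by rw [mul_comm]; exact h2⟩
    · rw [Ideal.span_singleton_le_iff_mem]
      exact (b i).2
  have hne0 : ((b i : P) : R) ≠ 0 := fun h0 => b.ne_zero i (Subtype.ext h0)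
  refine ⟨((b i : P) : R), ?_, hspan⟩
  rw [← Ideal.span_singleton_prime hne0, ← hspan]
  exact hP

theorem ufd (h : G_FREE) : G_UFD := by
  intro R _ _ _ _ x y hxy
  refine ⟨?_, fun P hP hP0 hPm => key h R x y hxy P hP hP0 hPm⟩
  rw [UniqueFactorizationMonoid.iff_exists_prime_mem_of_isPrime]
  intro I hI hprime
  by_cases hm : I = IsLocalRing.maximalIdeal R
  · refine ⟨x, ?_, hxy.prx⟩
    rw [hm, hxy.max]
    exact Ideal.subset_span (Or.inl rfl)
  · obtain ⟨π, hπ, hIπ⟩ := key h R x y hxy I hprime hI hm
    exact ⟨π, by rw [hIπ]; exact Ideal.mem_span_singleton_self π, hπ⟩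

end Pool.Agent.Helper15.PY
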